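import Pool.Agent.H8.TE.Reduce
import Pool.Graph.R_pool_sql_team_seeded_64922ed1.Results.MP_db9399_co.LogarithmicColours
import Pool.Graph.R_pool_sql_team_seeded_620a6dc7.Results.MP_db9399_co.AllBipartite

/-!
# Extending total colourings: reduction to the large vertices
-/

set_option autoImplicit false

namespace Pool.Agent.H8.TE

open Finset

/-- `(c, f)` is a total-`k`-colouring of `G`. -/
def Tot {V : Type} (G : SimpleGraph V) (k : ℕ) (c : V → ℕ) (f : Sym2 V → ℕ) : Prop :=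
  (∀ u v, G.Adj u v → c u ≠ c v) ∧
  (∀ u v w, G.Adj u v → G.Adj u w → v ≠ w → f s(u, v) ≠ f s(u, w)) ∧
  (∀ u v, G.Adj u v → f s(u, v) ≠ c u) ∧
  (∀ v, c v < k) ∧ ∀ e ∈ G.edgeSet, f e < k

/-- `(c, f)` is a total-`k`-colouring of the subgraph `H`. -/
def TotSub {V : Type} {G : SimpleGraph V} (H : G.Subgraph) (k : ℕ) (c : V → ℕ)
    (f : Sym2 V → ℕ) : Prop :=
  (∀ u v, H.Adj u v → c u ≠ c v) ∧
  (∀ u v w, H.Adj u v → H.Adj u w → v ≠ w → f s(u, v) ≠ f s(u, w)) ∧
  (∀ u v, H.Adj u v → f s(u, v) ≠ c u) ∧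
  (∀ v ∈ H.verts, c v < k) ∧ ∀ e ∈ H.edgeSet, f e < k

/-- Extension. -/
def Ext {V : Type} {G : SimpleGraph V} (H : G.Subgraph) (k : ℕ) (c₀ : V → ℕ)
    (f₀ : Sym2 V → ℕ) : Prop :=
  ∃ (c : V → ℕ) (f : Sym2 V → ℕ), Tot G k c f ∧
    (∀ v ∈ H.verts, c v = c₀ v) ∧ ∀ e ∈ H.edgeSet, f e = f₀ e

/-- `H` is a distance-3 matching. -/
def Dist3 {V : Type} {G : SimpleGraph V} (H : G.Subgraph) : Prop :=
  (∀ v ∈ H.verts, ∃! w, H.Adj v w) ∧
  ∀ u ∈ H.verts, ∀ v ∈ H.verts, u ≠ v → ¬ H.Adj u v → 3 ≤ G.edist u v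

/-- The number of neighbours of `v` in `T`. -/
noncomputable def nb {V : Type} (G : SimpleGraph V) (T : Set V) (v : V) : ℕ :=
  (G.neighborSet v ∩ T).ncard

/-- The edges inside `T`. -/
def inside {V : Type} (G : SimpleGraph V) (T : Set V) : SimpleGraph V where
  Adj u v := G.Adj u v ∧ u ∈ T ∧ v ∈ T
  symm := ⟨fun _ _ h => ⟨h.1.symm, h.2.2, h.2.1⟩⟩
  loopless := ⟨fun a h => G.loopless.irrefl a h.1⟩

/-- The hypotheses on the set `T`. -/
structure Core {V : Type} (G : SimpleGraph V) (D k : ℕ) (T : Set V) : Prop where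
  deg : ∀ v, (G.neighborSet v).ncard ≤ D
  k_le : D + 1 ≤ k
  out : ∀ v, v ∉ T → 2 * (G.neighborSet v).ncard < k
  cross : ∀ u v, G.Adj u v → u ∉ T → v ∈ T → nb G T u + nb G T v < k

/-- The general step: a colouring of what is inside `T` extends. -/
theorem core {V : Type} [Fintype V] (G : SimpleGraph V) (D k : ℕ) (T : Set V)
    (h : Core G D k T) (c : V → ℕ) (f : Sym2 V → ℕ) (hcT : ∀ v ∈ T, c v < k)
    (hf : ∀ u v, (inside G T).Adj u v → f s(u, v) < k)
    (h3 : ∀ u ∈ T, ∀ v ∈ T, G.Adj u v → c u ≠ c v)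
    (h4 : ∀ u v w, (inside G T).Adj u v → (inside G T).Adj u w → v ≠ w → f s(u, v) ≠ f s(u, w))
    (h5 : ∀ u v, (inside G T).Adj u v → f s(u, v) ≠ c u) :
    ∃ (c' : V → ℕ) (f' : Sym2 V → ℕ), Tot G k c' f' ∧ (∀ v ∈ T, c' v = c v) ∧
      ∀ u v, (inside G T).Adj u v → f' s(u, v) = f s(u, v) := by
  obtain ⟨gV, gE, g1, g2, g3, g4, g5, g6, g7⟩ := extendT G (inside G T) D k T
    (fun u v => Iff.rfl) h.deg h.k_le h.out h.cross c f hcT hf h3 h4 h5
  refine ⟨gV, gE, ⟨g5, g6, g7, g3, ?_⟩, g1, g2⟩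
  intro e he
  induction e using Sym2.ind with
  | _ u v => exact g4 u v he

theorem induced {V : Type} [Fintype V] (G : SimpleGraph V) (D k : ℕ) (T : Set V)
    (h : Core G D k T) (c : V → ℕ) (f : Sym2 V → ℕ) (hc : TotSub ((⊤ : G.Subgraph).induce T) k c f) :
    Ext ((⊤ : G.Subgraph).induce T) k c f := by
  obtain ⟨h1, h2, h3, h4, h5⟩ := hc
  have hadj : ∀ u v, ((⊤ : G.Subgraph).induce T).Adj u v ↔ (inside G T).Adj u v := by
    intro u v
    show (u ∈ T ∧ v ∈ T ∧ G.Adj u v) ↔ (G.Adj u v ∧ u ∈ T ∧ v ∈ T)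
    tauto
  obtain ⟨c', f', g1, g2, g3⟩ := core G D k T h c f (fun v hv => h4 v hv)
    (fun u v huv => h5 s(u, v) ((hadj u v).2 huv))
    (fun u hu v hv huv => h1 u v ((hadj u v).2 ⟨huv, hu, hv⟩))
    (fun u v w huv huw => h2 u v w ((hadj u v).2 huv) ((hadj u w).2 huw))
    (fun u v huv => h3 u v ((hadj u v).2 huv))
  refine ⟨c', f', g1, fun v hv => g2 v hv, ?_⟩
  intro e he
  induction e using Sym2.ind with
  | _ u v => exact g3 u v ((hadj u v).1 he)

/-- A subgraph `H` with vertices in `T`, inside the graph of the edges in `T`. -/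
def sub {V : Type} {G : SimpleGraph V} (T : Set V) (H : G.Subgraph) (hT : H.verts ⊆ T) :
    (inside G T).Subgraph where
  verts := H.verts
  Adj := H.Adj
  adj_sub := fun huv => ⟨H.adj_sub huv, hT (H.edge_vert huv), hT (H.edge_vert huv.symm)⟩
  edge_vert := fun huv => H.edge_vert huv
  symm := H.symm

/-- With the theorem on `Δ + O(log Δ)` colours. -/
theorem logT {V : Type} [Fintype V] (G : SimpleGraph V) (D k m t : ℕ) (T : Set V)
    (h : Core G D k T) (H : G.Subgraph) (hT : H.verts ⊆ T)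
    (ht : ∀ v, (H.neighborSet v).ncard ≤ t)
    (hm : ∀ v ∈ T, nb G T v ≤ m)
    (hk : (m : ℝ) + 1 + 334 * (t + 1) * Real.log (m + 1) ≤ k)
    (c₀ : V → ℕ) (f₀ : Sym2 V → ℕ) (h0 : TotSub H k c₀ f₀)
    (h0' : ∀ u ∈ H.verts, ∀ v ∈ H.verts, G.Adj u v → c₀ u ≠ c₀ v) : Ext H k c₀ f₀ := by
  classical
  obtain ⟨h1, h2, h3, h4, h5⟩ := h0
  have hmax : (inside G T).maxDegree ≤ m := by
    apply SimpleGraph.maxDegree_le_of_forall_degree_le
    intro v
    rw [← SimpleGraph.card_neighborSet_eq_degree, ← Nat.card_eq_fintype_card,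
      Nat.card_coe_set_eq]
    by_cases hv : v ∈ T
    · refine le_trans (le_of_eq ?_) (hm v hv)
      unfold nb
      congr 1
      ext w
      show (G.Adj v w ∧ v ∈ T ∧ w ∈ T) ↔ (G.Adj v w ∧ w ∈ T)
      tauto
    · have : (inside G T).neighborSet v = ∅ := by
        ext w
        simp only [Set.mem_empty_iff_false, iff_false]
        intro hw
        exact hv hw.2.1
      rw [this]
      simp
  have hlog : Real.log (((inside G T).maxDegree : ℝ) + 1) ≤ Real.log ((m : ℝ) + 1) := by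
    apply Real.log_le_log (by positivity)
    have : (((inside G T).maxDegree : ℕ) : ℝ) ≤ m := by exact_mod_cast hmax
    linarith
  have hkk : ((inside G T).maxDegree : ℝ) + 1 +
      334 * (t + 1) * Real.log ((inside G T).maxDegree + 1) ≤ k := by
    have e1 : (((inside G T).maxDegree : ℕ) : ℝ) ≤ m := by exact_mod_cast hmax
    have e2 : 334 * ((t : ℝ) + 1) * Real.log (((inside G T).maxDegree : ℝ) + 1) ≤
        334 * (t + 1) * Real.log (m + 1) := mul_le_mul_of_nonneg_left hlog (by positivity)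
    linarith
  obtain ⟨c, f, ⟨g1, g2, g3, g4, g5⟩, g6, g7⟩ :=
    Pool.Agent.Results.MP_db9399_co.LogarithmicColours.result V (inside G T) t (sub T H hT)
      ht k hkk c₀ f₀ ⟨fun u hu v hv huv => h0' u hu v hv huv.1, h2, h3, h4, h5⟩
  obtain ⟨c', f', k1, k2, k3⟩ := core G D k T h c f (fun v _ => g4 v)
    (fun u v huv => g5 s(u, v) huv) (fun u hu v hv huv => g1 u v ⟨huv, hu, hv⟩) g2 g3
  refine ⟨c', f', k1, ?_, ?_⟩
  · intro v hv
    rw [k2 v (hT hv)]
    exact g6 v hv
  · intro e he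
    induction e using Sym2.ind with
    | _ u v =>
      have he' : H.Adj u v := he
      rw [k3 u v ⟨H.adj_sub he', hT (H.edge_vert he'), hT (H.edge_vert he'.symm)⟩]
      exact g7 _ he

theorem adj_of_dist3 {V : Type} {G : SimpleGraph V} {H : G.Subgraph} (hH : Dist3 H) {u v : V}
    (hu : u ∈ H.verts) (hv : v ∈ H.verts) (huv : G.Adj u v) : H.Adj u v := by
  by_contra hcon
  have h1 := hH.2 u hu v hv huv.ne hcon
  have h2 : G.edist u v = 1 := SimpleGraph.edist_eq_one_iff_adj.2 huv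
  rw [h2] at h1
  exact absurd h1 (by norm_num)

theorem nbrs_dist3 {V : Type} [Fintype V] {G : SimpleGraph V} {H : G.Subgraph} (hH : Dist3 H)
    (u : V) : (G.neighborSet u ∩ H.verts).ncard ≤ 2 := by
  classical
  by_cases hne : (G.neighborSet u ∩ H.verts).Nonempty
  · obtain ⟨a, ha1, ha2⟩ := hne
    obtain ⟨b, hb, hb'⟩ := hH.1 a ha2
    have hsub : G.neighborSet u ∩ H.verts ⊆ {a, b} := by
      rintro w ⟨hw1, hw2⟩
      by_cases hwa : w = a
      · exact Or.inl hwa
      · right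
        by_contra hwb
        have hnad : ¬ H.Adj a w := fun h => hwb (hb' w h)
        have h1 := hH.2 a ha2 w hw2 (fun h => hwa h.symm) hnad
        have h2 : G.edist a w ≤ 2 := by
          calc G.edist a w ≤ G.edist a u + G.edist u w := SimpleGraph.edist_triangle
            _ = 1 + 1 := by
              rw [SimpleGraph.edist_eq_one_iff_adj.2 (show G.Adj a u from ha1.symm),
                SimpleGraph.edist_eq_one_iff_adj.2 (show G.Adj u w from hw1)]
            _ = 2 := by norm_num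
        exact absurd (h1.trans h2) (by norm_num)
    refine (Set.ncard_le_ncard hsub (Set.toFinite _)).trans ?_
    refine (Set.ncard_insert_le a {b}).trans ?_
    simp
  · rw [Set.not_nonempty_iff_eq_empty.1 hne]
    simp

theorem nbrs_dist3' {V : Type} [Fintype V] {G : SimpleGraph V} {H : G.Subgraph} (hH : Dist3 H)
    (u : V) (hu : u ∈ H.verts) : (G.neighborSet u ∩ H.verts).ncard ≤ 1 := by
  classical
  obtain ⟨b, hb, hb'⟩ := hH.1 u hu
  have hsub : G.neighborSet u ∩ H.verts ⊆ {b} := by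
    rintro w ⟨hw1, hw2⟩
    exact hb' w (adj_of_dist3 hH hu hw2 hw1)
  exact (Set.ncard_le_ncard hsub (Set.toFinite _)).trans (by simp)

theorem nb_union {V : Type} [Fintype V] (G : SimpleGraph V) (S T : Set V) (v : V) :
    nb G (S ∪ T) v ≤ nb G S v + nb G T v := by
  unfold nb
  rw [Set.inter_union_distrib_left]
  exact Set.ncard_union_le _ _

theorem nb_le {V : Type} [Fintype V] (G : SimpleGraph V) (T : Set V) (v : V) :
    nb G T v ≤ (G.neighborSet v).ncard :=
  Set.ncard_le_ncard Set.inter_subset_left (Set.toFinite _)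

/-- Distance-3 matchings. -/
theorem dist3 {V : Type} [Fintype V] (G : SimpleGraph V) (D k b : ℕ) (L : Set V)
    (hD : ∀ v, (G.neighborSet v).ncard ≤ D) (hk : D + 1 ≤ k)
    (hL : ∀ v, k ≤ 2 * (G.neighborSet v).ncard → v ∈ L)
    (hb1 : 668 * Real.log k + 2 ≤ b) (hb2 : 2 * b ≤ k)
    (h1 : ∀ v, v ∉ L → nb G L v ≤ b) (h2 : ∀ v ∈ L, nb G L v + b + 5 ≤ k)
    (H : G.Subgraph) (hH : Dist3 H) (c₀ : V → ℕ) (f₀ : Sym2 V → ℕ) (h0 : TotSub H k c₀ f₀) :
    Ext H k c₀ f₀ := by
  classical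
  set T : Set V := L ∪ H.verts with hT
  have hout : ∀ v, v ∉ L → 2 * (G.neighborSet v).ncard < k := by
    intro v hv
    by_contra hcon
    exact hv (hL v (not_lt.1 hcon))
  have hnbT : ∀ v, nb G T v ≤ nb G L v + 2 := by
    intro v
    have e1 := nb_union G L H.verts v
    have e2 : nb G H.verts v ≤ 2 := nbrs_dist3 hH v
    rw [hT]
    omega
  have hcore : Core G D k T := by
    refine ⟨hD, hk, fun v hv => hout v (fun h => hv (Or.inl h)), ?_⟩
    intro u v huv hu hv
    have hu' : u ∉ L := fun h => hu (Or.inl h)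
    by_cases hv' : v ∈ L
    · have e1 := hnbT u
      have e2 := hnbT v
      have e3 := h1 u hu'
      have e4 := h2 v hv'
      omega
    · have e1 := (nb_le G T u)
      have e2 := (nb_le G T v)
      have e3 := hout u hu'
      have e4 := hout v hv'
      omega
  -- the degrees inside `T`
  have hb10 : 10 ≤ b := by
    have hb0 : (2 : ℝ) ≤ b := by
      have hk1 : (1 : ℝ) ≤ k := by
        have : 1 ≤ k := by omega
        exact_mod_cast this
      have := Real.log_nonneg hk1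
      linarith
    have hk2 : 4 ≤ k := by
      have : 2 ≤ b := by exact_mod_cast hb0
      omega
    -- `668 log 4 > 3`
    have hl : Real.log 4 ≤ Real.log k := Real.log_le_log (by norm_num) (by exact_mod_cast hk2)
    have hl2 : (1 : ℝ) ≤ Real.log 4 := by
      rw [Real.le_log_iff_exp_le (by norm_num)]
      have := Real.exp_one_lt_d9
      linarith
    have : (10 : ℝ) ≤ b := by linarith
    exact_mod_cast this
  have hm : ∀ v ∈ T, nb G T v ≤ k - b := by
    intro v hv
    by_cases hv' : v ∈ L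
    · have e1 := hnbT v
      have e2 := h2 v hv'
      omega
    · have e1 := (nb_le G T v)
      have e2 := hout v hv'
      omega
  refine logT G D k (k - b) 1 T hcore H (fun v hv => Or.inr hv) ?_ hm ?_ c₀ f₀ h0 ?_
  · intro v
    by_cases hv : v ∈ H.verts
    · obtain ⟨b, hb, hb'⟩ := hH.1 v hv
      have hsub : H.neighborSet v ⊆ {b} := fun w hw => hb' w hw
      exact (Set.ncard_le_ncard hsub (Set.toFinite _)).trans (by simp)
    · have : H.neighborSet v = ∅ := by
        ext w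
        simp only [Set.mem_empty_iff_false, iff_false]
        intro hw
        exact hv (H.edge_vert hw)
      rw [this]
      simp
  · have e1 : ((k - b : ℕ) : ℝ) = k - b := by
      rw [Nat.cast_sub (by omega)]
    have e2 : Real.log (((k - b : ℕ) : ℝ) + 1) ≤ Real.log k := by
      apply Real.log_le_log (by positivity)
      have : k - b + 1 ≤ k := by omega
      exact_mod_cast this
    have e3 : (334 : ℝ) * ((1 : ℕ) + 1) * Real.log (((k - b : ℕ) : ℝ) + 1) ≤
        668 * Real.log k := by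
      push_cast
      nlinarith
    rw [e1] at *
    linarith
  · intro u hu v hv huv
    exact h0.1 u v (adj_of_dist3 hH hu hv huv)

/-- The vertices of degree more than `b`. -/
theorem dist3_b {V : Type} [Fintype V] (G : SimpleGraph V) (D k b : ℕ)
    (hD : ∀ v, (G.neighborSet v).ncard ≤ D) (hk : D + 1 ≤ k)
    (hb1 : 668 * Real.log k + 2 ≤ b) (hb2 : 2 * b < k)
    (h2 : ∀ v, b < (G.neighborSet v).ncard →
      {w | G.Adj v w ∧ b < (G.neighborSet w).ncard}.ncard + b + 5 ≤ k)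
    (H : G.Subgraph) (hH : Dist3 H) (c₀ : V → ℕ) (f₀ : Sym2 V → ℕ) (h0 : TotSub H k c₀ f₀) :
    Ext H k c₀ f₀ := by
  refine dist3 G D k b {v | b < (G.neighborSet v).ncard} hD hk ?_ hb1 (by omega) ?_ ?_ H hH c₀ f₀
    h0
  · intro v hv
    show b < (G.neighborSet v).ncard
    omega
  · intro v hv
    exact (nb_le G _ v).trans (not_lt.1 hv)
  · intro v hv
    exact h2 v hv

/-- The vertices of degree at least `k / 2`. -/
theorem dist3_half {V : Type} [Fintype V] (G : SimpleGraph V) (D k : ℕ)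
    (hD : ∀ v, (G.neighborSet v).ncard ≤ D) (hk : D + 1 ≤ k)
    (hb1 : 1336 * Real.log k + 6 ≤ k)
    (h2 : ∀ v, k ≤ 2 * (G.neighborSet v).ncard →
      2 * {w | G.Adj v w ∧ k ≤ 2 * (G.neighborSet w).ncard}.ncard + 10 ≤ k)
    (H : G.Subgraph) (hH : Dist3 H) (c₀ : V → ℕ) (f₀ : Sym2 V → ℕ) (h0 : TotSub H k c₀ f₀) :
    Ext H k c₀ f₀ := by
  refine dist3 G D k (k / 2) {v | k ≤ 2 * (G.neighborSet v).ncard} hD hk (fun v hv => hv) ?_
    (by omega) ?_ ?_ H hH c₀ f₀ h0
  · have h1 : k ≤ 2 * (k / 2) + 1 := by omega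
    have h1' : (k : ℝ) ≤ 2 * ((k / 2 : ℕ) : ℝ) + 1 := by exact_mod_cast h1
    linarith
  · intro v hv
    have e1 := nb_le G {v | k ≤ 2 * (G.neighborSet v).ncard} v
    have e2 : ¬ k ≤ 2 * (G.neighborSet v).ncard := hv
    omega
  · intro v hv
    have e1 := h2 v hv
    have e2 : nb G {v | k ≤ 2 * (G.neighborSet v).ncard} v =
      {w | G.Adj v w ∧ k ≤ 2 * (G.neighborSet w).ncard}.ncard := rfl
    omega

/-- Bipartite core. -/
theorem bip {V : Type} [Fintype V] (G : SimpleGraph V) (D : ℕ) (T X : Set V)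
    (h : Core G D (D + 2) T)
    (hX : ∀ u v, G.Adj u v → u ∈ T → v ∈ T → (u ∈ X ↔ v ∉ X))
    (H : G.Subgraph) (hH : Dist3 H) (hT : H.verts ⊆ T) (c₀ : V → ℕ) (f₀ : Sym2 V → ℕ)
    (h0 : TotSub H (D + 2) c₀ f₀) : Ext H (D + 2) c₀ f₀ := by
  classical
  obtain ⟨h1, h2, h3, h4, h5⟩ := h0
  set c₁ : V → Fin (D + 2) := fun v => ⟨c₀ v % (D + 2), Nat.mod_lt _ (by omega)⟩ with hc₁
  set f₁ : Sym2 V → Fin (D + 2) := fun v => ⟨f₀ v % (D + 2), Nat.mod_lt _ (by omega)⟩ with hf₁
  have hc : ∀ v ∈ H.verts, (c₁ v : ℕ) = c₀ v := by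
    intro v hv
    simp only [hc₁]
    exact Nat.mod_eq_of_lt (h4 v hv)
  have hf : ∀ e ∈ H.edgeSet, (f₁ e : ℕ) = f₀ e := by
    intro v hv
    simp only [hf₁]
    exact Nat.mod_eq_of_lt (h5 v hv)
  obtain ⟨c, f, k1, k2⟩ := (Pool.Agent.Results.MP_db9399_co.AllBipartite.result).1 V (inside G T)
    H.spanningCoe D X (fun u v huv => hX u v huv.1 huv.2.1 huv.2.2)
    (fun v => (Set.ncard_le_ncard (fun w hw => hw.1) (Set.toFinite _)).trans (h.deg v))
    ⟨fun u v huv => ⟨H.adj_sub huv, hT (H.edge_vert huv), hT (H.edge_vert huv.symm)⟩, by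
      intro u v w huv huw
      obtain ⟨b, hb, hb'⟩ := hH.1 u (H.edge_vert huv)
      rw [hb' v huv, hb' w huw], by
      intro u v x y huv hxy hne
      have hG : inside G T ≤ G := fun a b hab => hab.1
      refine le_trans ?_ (SimpleGraph.edist_anti hG)
      apply hH.2 u (H.edge_vert huv) x (H.edge_vert hxy)
      · rintro rfl
        obtain ⟨b, hb, hb'⟩ := hH.1 u (H.edge_vert huv)
        rw [hb' v huv, hb' y hxy] at hne
        exact hne rfl
      · intro hux
        obtain ⟨b, hb, hb'⟩ := hH.1 u (H.edge_vert huv)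
        obtain ⟨b', hc, hc'⟩ := hH.1 x (H.edge_vert hxy)
        have e1 : v = x := (hb' v huv).trans (hb' x hux).symm
        have e2 : y = u := (hc' y hxy).trans (hc' u hux.symm).symm
        apply hne
        rw [e1, e2]
        exact Sym2.eq_swap⟩ c₁ f₁ (by
      refine ⟨?_, ?_, ?_⟩
      · intro u v huv he
        have e1 := congrArg Fin.val he
        rw [hc u (H.edge_vert huv), hc v (H.edge_vert huv.symm)] at e1
        exact h1 u v huv e1
      · intro u v w huv huw hvw he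
        have e1 := congrArg Fin.val he
        rw [hf _ (SimpleGraph.Subgraph.mem_edgeSet.2 huv),
          hf _ (SimpleGraph.Subgraph.mem_edgeSet.2 huw)] at e1
        exact h2 u v w huv huw hvw e1
      · intro u v huv he
        have e1 := congrArg Fin.val he
        rw [hf _ (SimpleGraph.Subgraph.mem_edgeSet.2 huv), hc u (H.edge_vert huv)] at e1
        exact h3 u v huv e1)
  -- the vertices of `T` without neighbours inside `T`
  obtain ⟨k3, k4, k5⟩ := k1
  obtain ⟨c', f', g1, g2, g3⟩ := core G D (D + 2) T h (fun v => (c v : ℕ)) (fun e => (f e : ℕ))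
    (fun v _ => (c v).2) (fun u v _ => (f s(u, v)).2)
    (fun u hu v hv huv he => k3 u v ⟨huv, hu, hv⟩ (Fin.ext he))
    (fun u v w huv huw hvw he => k4 u v w huv huw hvw (Fin.ext he))
    (fun u v huv he => k5 u v huv (Fin.ext he))
  refine ⟨c', f', g1, ?_, ?_⟩
  · intro v hv
    rw [g2 v (hT hv)]
    obtain ⟨w, hw, _⟩ := hH.1 v hv
    show (c v : ℕ) = c₀ v
    rw [(k2 v w hw).1, hc v hv]
  · intro e he
    induction e using Sym2.ind with
    | _ u v =>
      have he' : H.Adj u v := he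
      rw [g3 u v ⟨H.adj_sub he', hT (H.edge_vert he'), hT (H.edge_vert he'.symm)⟩]
      show (f s(u, v) : ℕ) = f₀ s(u, v)
      rw [(k2 u v he').2, hf _ he]

end Pool.Agent.H8.TE
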