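import Pool.Agent.H8.TE.Main
import Pool.Agent.H8.MR.Main

/-!
# Extending total colourings: reduction to the large vertices, with constants
-/

set_option autoImplicit false

namespace Pool.Agent.H8.TE

open Finset

/-- The theorem on `Δ + O(1)` colours, for bounded `c`. -/
theorem bounded (c : ℕ) : ∃ K : ℕ, ∀ (V : Type) [Fintype V] (G : SimpleGraph V) (D k : ℕ)
    (H : G.Subgraph), (∀ v, (G.neighborSet v).ncard ≤ D) →
    (∀ v, (G.neighborSet v ∩ H.verts).ncard ≤ c) → D + K ≤ k →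
    ∀ (c₀ : V → ℕ) (f₀ : Sym2 V → ℕ), TotSub H k c₀ f₀ →
      (∀ u ∈ H.verts, ∀ v ∈ H.verts, G.Adj u v → c₀ u ≠ c₀ v) → Ext H k c₀ f₀ := by
  obtain ⟨C, hC⟩ := Pool.Agent.H8.MR.main
  obtain ⟨N, hN⟩ := exists_nat_ge (Real.exp (4 * c + 2))
  refine ⟨C * (c + 1) + N + 1, ?_⟩
  intro V _ G D k H hD hP hk c₀ f₀ h0 h0'
  have hlog : ((4 * c + 2 : ℕ) : ℝ) ≤ Real.log D ∨ 2 * D + 1 ≤ k := by
    rcases Nat.lt_or_ge N D with hlt | hge
    · left
      have h1 : Real.exp (4 * c + 2) ≤ D := by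
        refine hN.trans ?_
        exact_mod_cast hlt.le
      rw [Real.le_log_iff_exp_le ((Real.exp_pos _).trans_le h1)]
      push_cast
      exact h1
    · right
      omega
  obtain ⟨c', f', h1, h2, h3, _⟩ := hC V G D c k H (fun _ => ∅) hD hP (fun _ => by simp)
    (by omega) hlog c₀ f₀ h0 h0'
  exact ⟨c', f', h1, h2, h3⟩

/-- With the theorem on `Δ + O(1)` colours. -/
theorem constT (c : ℕ) : ∃ K : ℕ, ∀ (V : Type) [Fintype V] (G : SimpleGraph V) (D k m : ℕ)
    (T : Set V) (_ : Core G D k T) (H : G.Subgraph) (_ : H.verts ⊆ T)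
    (_ : ∀ v ∈ T, (G.neighborSet v ∩ H.verts).ncard ≤ c)
    (_ : ∀ v ∈ T, nb G T v ≤ m) (_ : m + K ≤ k)
    (c₀ : V → ℕ) (f₀ : Sym2 V → ℕ) (_ : TotSub H k c₀ f₀)
    (_ : ∀ u ∈ H.verts, ∀ v ∈ H.verts, G.Adj u v → c₀ u ≠ c₀ v), Ext H k c₀ f₀ := by
  obtain ⟨K, hK⟩ := bounded c
  refine ⟨K, ?_⟩
  intro V _ G D k m T h H hT hc hm hk c₀ f₀ h0 h0'
  obtain ⟨h1, h2, h3, h4, h5⟩ := h0
  obtain ⟨c', f, ⟨g1, g2, g3, g4, g5⟩, g6, g7⟩ := hK V (inside G T) m k (sub T H hT) (by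
      intro v
      by_cases hv : v ∈ T
      · refine le_trans (Set.ncard_le_ncard ?_ (Set.toFinite _)) (hm v hv)
        intro w hw
        exact ⟨hw.1, hw.2.2⟩
      · have : (inside G T).neighborSet v = ∅ := by
          ext w
          simp only [Set.mem_empty_iff_false, iff_false]
          intro hw
          exact hv hw.2.1
        rw [this]
        simp) (by
      intro v
      by_cases hv : v ∈ T
      · refine le_trans (Set.ncard_le_ncard ?_ (Set.toFinite _)) (hc v hv)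
        rintro w ⟨hw, hw'⟩
        exact ⟨hw.1, hw'⟩
      · have : (inside G T).neighborSet v ∩ (sub T H hT).verts = ∅ := by
          ext w
          simp only [Set.mem_empty_iff_false, iff_false]
          rintro ⟨hw, _⟩
          exact hv hw.2.1
        rw [this]
        simp) hk c₀ f₀ ⟨h1, h2, h3, h4, h5⟩ (fun u hu v hv huv => h0' u hu v hv huv.1)
  obtain ⟨c'', f'', k1, k2, k3⟩ := core G D k T h c' f (fun v _ => g4 v)
    (fun u v huv => g5 s(u, v) huv) (fun u hu v hv huv => g1 u v ⟨huv, hu, hv⟩) g2 g3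
  refine ⟨c'', f'', k1, ?_, ?_⟩
  · intro v hv
    rw [k2 v (hT hv)]
    exact g6 v hv
  · intro e he
    induction e using Sym2.ind with
    | _ u v =>
      have he' : H.Adj u v := he
      rw [k3 u v ⟨H.adj_sub he', hT (H.edge_vert he'), hT (H.edge_vert he'.symm)⟩]
      exact g7 _ he

/-- Distance-3 matchings. -/
theorem dist3C : ∃ C : ℕ, ∀ (V : Type) [Fintype V] (G : SimpleGraph V) (D k b : ℕ) (L : Set V)
    (_ : ∀ v, (G.neighborSet v).ncard ≤ D) (_ : D + 1 ≤ k)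
    (_ : ∀ v, k ≤ 2 * (G.neighborSet v).ncard → v ∈ L)
    (_ : C ≤ b) (_ : 2 * b ≤ k)
    (_ : ∀ v, v ∉ L → nb G L v ≤ b) (_ : ∀ v ∈ L, nb G L v + b + 5 ≤ k)
    (H : G.Subgraph) (_ : Dist3 H) (c₀ : V → ℕ) (f₀ : Sym2 V → ℕ) (_ : TotSub H k c₀ f₀),
    Ext H k c₀ f₀ := by
  obtain ⟨K, hK⟩ := constT 2
  refine ⟨K, ?_⟩
  intro V _ G D k b L hD hk hL hb1 hb2 h1 h2 H hH c₀ f₀ h0
  classical
  set T : Set V := L ∪ H.verts with hT
  have hout : ∀ v, v ∉ L → 2 * (G.neighborSet v).ncard < k := by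
    intro v hv
    by_contra hcon
    exact hv (hL v (not_lt.1 hcon))
  have hnbT : ∀ v, nb G T v ≤ nb G L v + 2 := by
    intro v
    have e1 := nb_union G L H.verts v
    have e2 : nb G H.verts v ≤ 2 := nbrs_dist3 hH v
    rw [hT]
    omega
  have hcore : Core G D k T := by
    refine ⟨hD, hk, fun v hv => hout v (fun h => hv (Or.inl h)), ?_⟩
    intro u v huv hu hv
    have hu' : u ∉ L := fun h => hu (Or.inl h)
    by_cases hv' : v ∈ L
    · have e1 := hnbT u
      have e2 := hnbT v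
      have e3 := h1 u hu'
      have e4 := h2 v hv'
      omega
    · have e1 := (nb_le G T u)
      have e2 := (nb_le G T v)
      have e3 := hout u hu'
      have e4 := hout v hv'
      omega
  have hm : ∀ v ∈ T, nb G T v ≤ k - b := by
    intro v hv
    by_cases hv' : v ∈ L
    · have e1 := hnbT v
      have e2 := h2 v hv'
      omega
    · have e1 := (nb_le G T v)
      have e2 := hout v hv'
      omega
  refine hK V G D k (k - b) T hcore H (fun v hv => Or.inr hv) (fun v _ => nbrs_dist3 hH v) hm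
    (by omega) c₀ f₀ h0 ?_
  intro u hu v hv huv
  exact h0.1 u v (adj_of_dist3 hH hu hv huv)

/-- The vertices of degree more than `b`, and the vertices of degree at least `k / 2`. -/
theorem dist3C' : ∃ C : ℕ, ∀ (V : Type) [Fintype V] (G : SimpleGraph V) (D k b : ℕ)
    (_ : ∀ v, (G.neighborSet v).ncard ≤ D) (_ : D + 1 ≤ k)
    (_ : C ≤ b)
    (_ : (2 * b < k ∧ ∀ v, b < (G.neighborSet v).ncard →
        {w | G.Adj v w ∧ b < (G.neighborSet w).ncard}.ncard + b + 5 ≤ k) ∨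
      (b = k ∧ ∀ v, k ≤ 2 * (G.neighborSet v).ncard →
        2 * {w | G.Adj v w ∧ k ≤ 2 * (G.neighborSet w).ncard}.ncard + 10 ≤ k))
    (H : G.Subgraph) (_ : Dist3 H) (c₀ : V → ℕ) (f₀ : Sym2 V → ℕ) (_ : TotSub H k c₀ f₀),
    Ext H k c₀ f₀ := by
  obtain ⟨C, hC⟩ := dist3C
  refine ⟨2 * C + 1, ?_⟩
  intro V _ G D k b hD hk hb h H hH c₀ f₀ h0
  rcases h with ⟨hb2, h2⟩ | ⟨rfl, h2⟩
  · refine hC V G D k b {v | b < (G.neighborSet v).ncard} hD hk ?_ (by omega) (by omega) ?_ ?_ H hH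
      c₀ f₀ h0
    · intro v hv
      show b < (G.neighborSet v).ncard
      omega
    · intro v hv
      exact (nb_le G _ v).trans (not_lt.1 hv)
    · intro v hv
      exact h2 v hv
  · refine hC V G D b (b / 2) {v | b ≤ 2 * (G.neighborSet v).ncard} hD hk (fun v hv => hv) ?_
      (by omega) ?_ ?_ H hH c₀ f₀ h0
    · omega
    · intro v hv
      have e1 := nb_le G {v | b ≤ 2 * (G.neighborSet v).ncard} v
      have e2 : ¬ b ≤ 2 * (G.neighborSet v).ncard := hv
      omega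
    · intro v hv
      have e1 := h2 v hv
      have e2 : nb G {v | b ≤ 2 * (G.neighborSet v).ncard} v =
        {w | G.Adj v w ∧ b ≤ 2 * (G.neighborSet w).ncard}.ncard := rfl
      omega

end Pool.Agent.H8.TE
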