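import Pool.Agent.H8.HY.Circ

/-!
# Extending total colourings from the subgraph induced by the large vertices
-/

set_option autoImplicit false

namespace Pool.Agent.H8.TE

open Finset Pool.Agent.TH559.LE Pool.Agent.H8.HY

theorem far_one {N a b : ℕ} (ha : a < N) (hb : b < N) : Far 1 N a b ↔ a ≠ b := by
  unfold Far
  constructor
  · rintro ⟨h, _⟩ rfl
    simp at h
  · intro h
    have h1 : (a : ℤ) - b ≠ 0 := by
      intro h2
      apply h
      omega
    refine ⟨by
      have := abs_pos.2 h1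
      push_cast
      omega, ?_⟩
    rw [abs_le]
    constructor <;> push_cast <;> omega

/-- A total colouring of the graph `F` of the edges inside `T` (and of the vertices in `T`) with
`k` colours extends to `G`. -/
theorem extendT {V : Type} [Fintype V] (G F : SimpleGraph V) (D k : ℕ) (T : Set V)
    (hF : ∀ u v, F.Adj u v ↔ G.Adj u v ∧ u ∈ T ∧ v ∈ T)
    (hD : ∀ v, (G.neighborSet v).ncard ≤ D) (hk : D + 1 ≤ k)
    (hW : ∀ v, v ∉ T → 2 * (G.neighborSet v).ncard < k)
    (hcross : ∀ u v, G.Adj u v → u ∉ T → v ∈ T →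
      (G.neighborSet u ∩ T).ncard + (G.neighborSet v ∩ T).ncard < k)
    (fV : V → ℕ) (fE : Sym2 V → ℕ)
    (h1 : ∀ v ∈ T, fV v < k) (h2 : ∀ u v, F.Adj u v → fE s(u, v) < k)
    (h3 : ∀ u ∈ T, ∀ v ∈ T, G.Adj u v → fV u ≠ fV v)
    (h4 : ∀ u v w, F.Adj u v → F.Adj u w → v ≠ w → fE s(u, v) ≠ fE s(u, w))
    (h5 : ∀ u v, F.Adj u v → fE s(u, v) ≠ fV u) :
    ∃ (gV : V → ℕ) (gE : Sym2 V → ℕ), (∀ v ∈ T, gV v = fV v) ∧
      (∀ u v, F.Adj u v → gE s(u, v) = fE s(u, v)) ∧
      (∀ v, gV v < k) ∧ (∀ u v, G.Adj u v → gE s(u, v) < k) ∧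
      (∀ u v, G.Adj u v → gV u ≠ gV v) ∧
      (∀ u v w, G.Adj u v → G.Adj u w → v ≠ w → gE s(u, v) ≠ gE s(u, w)) ∧
      (∀ u v, G.Adj u v → gE s(u, v) ≠ gV u) := by
  classical
  let B : SimpleGraph V :=
    { Adj := fun a b => G.Adj a b ∧ (a ∈ T ∨ b ∈ T)
      symm := ⟨fun a b h => ⟨h.1.symm, h.2.symm⟩⟩
      loopless := ⟨fun a h => G.loopless.irrefl a h.1⟩ }
  have hBG : B ≤ G := fun a b h => h.1
  have hFB : F ≤ B := fun a b h => ⟨((hF a b).1 h).1, Or.inl ((hF a b).1 h).2.1⟩
  -- lists: the colours of `F` are kept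
  set L : Sym2 V → Finset ℕ := fun z => if z ∈ F.edgeSet then {fE z} else (range k).filter
    (fun x => ∀ v ∈ z, v ∈ T → fV v ≠ x) with hL
  have hok : Ok F L fE := by
    refine ⟨fun u v huv => ?_, h4⟩
    have : s(u, v) ∈ F.edgeSet := huv
    simp [hL, this]
  have hdF0 : ∀ v, v ∉ T → dg F v = 0 := by
    intro v hv
    rw [dg, Set.ncard_eq_zero (Set.toFinite _)]
    ext w
    simp only [SimpleGraph.mem_neighborSet, Set.mem_empty_iff_false, iff_false]
    intro h
    exact hv ((hF v w).1 h).2.1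
  have hdF1 : ∀ v, v ∈ T → dg F v = (G.neighborSet v ∩ T).ncard := by
    intro v hv
    rw [dg]
    congr 1
    ext w
    simp only [SimpleGraph.mem_neighborSet, Set.mem_inter_iff, hF]
    tauto
  have hdB : ∀ v, v ∉ T → dg B v = (G.neighborSet v ∩ T).ncard := by
    intro v hv
    rw [dg]
    congr 1
    ext w
    show (G.Adj v w ∧ (v ∈ T ∨ w ∈ T)) ↔ _
    simp only [SimpleGraph.mem_neighborSet, Set.mem_inter_iff]
    tauto
  have hLcard : ∀ u v, u ∉ T → v ∈ T → k ≤ (L s(u, v)).card + 1 := by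
    intro u v hu hv
    have hz : s(u, v) ∉ F.edgeSet := fun h => hu ((hF u v).1 h).2.1
    have e2 : (range k).erase (fV v) ⊆ L s(u, v) := by
      intro x hx
      rw [Finset.mem_erase] at hx
      simp only [hL, if_neg hz, Finset.mem_filter]
      refine ⟨hx.2, ?_⟩
      intro y hy hyT
      rcases Sym2.mem_iff.1 hy with rfl | rfl
      · exact absurd hyT hu
      · exact fun h => hx.1 h.symm
    have e3 := Finset.card_le_card e2
    have e4 := Finset.pred_card_le_card_erase (s := range k) (a := fV v)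
    rw [Finset.card_range] at e4
    omega
  obtain ⟨c, hc⟩ : ∃ c, Ok B L c := by
    refine ext F B hFB (fun v => v ∈ T) ?_ L ?_ fE hok
    · intro u v g1 g2
      have g3 : ¬ (u ∈ T ∧ v ∈ T) := fun h => g2 ((hF u v).2 ⟨g1.1, h⟩)
      have g4 := g1.2
      tauto
    · intro u v g1 g2
      have g3 : ¬ (u ∈ T ∧ v ∈ T) := fun h => g2 ((hF u v).2 ⟨g1.1, h⟩)
      by_cases hv : v ∈ T
      · have hu : u ∉ T := fun h => g3 ⟨h, hv⟩
        rw [hdB u hu, hdF1 v hv]
        have g4 := hcross u v g1.1 hu hv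
        have g5 := hLcard u v hu hv
        omega
      · have hu : u ∈ T := g1.2.resolve_right hv
        rw [hdF0 v hv]
        have g6 := dg_mono hBG u
        have g7 : dg G u ≤ D := hD u
        have g8 := hLcard v u hv hu
        rw [Sym2.eq_swap] at g8
        omega
  have hcF : ∀ u v, F.Adj u v → c s(u, v) = fE s(u, v) := by
    intro u v huv
    have e1 := hc.1 u v (hFB huv)
    have : s(u, v) ∈ F.edgeSet := huv
    simpa [hL, this] using e1
  have hcB : ∀ u v, B.Adj u v → c s(u, v) < k ∧ ∀ x ∈ s(u, v), x ∈ T → fV x ≠ c s(u, v) := by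
    intro u v huv
    by_cases hf : F.Adj u v
    · rw [hcF u v hf]
      refine ⟨h2 u v hf, ?_⟩
      intro x hx _
      rcases Sym2.mem_iff.1 hx with rfl | rfl
      · exact (h5 x v hf).symm
      · have := (h5 x u hf.symm).symm
        rwa [Sym2.eq_swap] at this
    · have e1 := hc.1 u v huv
      have hz : s(u, v) ∉ F.edgeSet := hf
      simp only [hL, if_neg hz, Finset.mem_filter, Finset.mem_range] at e1
      exact e1
  -- edges outside `T`
  set L' : Sym2 V → Finset ℕ := fun z => if z ∈ B.edgeSet then {c z} else range k with hL'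
  have hok' : Ok B L' c := by
    refine ⟨fun u v huv => ?_, hc.2⟩
    have : s(u, v) ∈ B.edgeSet := huv
    simp [hL', this]
  obtain ⟨d, hd⟩ := greedy G B hBG L' ⟨c, hok'⟩ (by
    intro u v huv hnB
    have hne : ¬ (u ∈ T ∨ v ∈ T) := fun h => hnB ⟨huv, h⟩
    push Not at hne
    have hz : s(u, v) ∉ B.edgeSet := hnB
    have hcard : (L' s(u, v)).card = k := by simp [hL', hz]
    rw [hcard]
    have e1 := hW u hne.1
    have e2 := hW v hne.2
    unfold dg
    omega)
  have hdB' : ∀ u v, B.Adj u v → d s(u, v) = c s(u, v) := by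
    intro u v huv
    have e1 := hd.1 u v (hBG huv)
    have : s(u, v) ∈ B.edgeSet := huv
    simpa [hL', this] using e1
  have hdN : ∀ u v, G.Adj u v → d s(u, v) < k := by
    intro u v huv
    by_cases hb : B.Adj u v
    · rw [hdB' u v hb]
      exact (hcB u v hb).1
    · have e1 := hd.1 u v huv
      have hz : s(u, v) ∉ B.edgeSet := hb
      simpa [hL', hz] using e1
  obtain ⟨gV, g1, g2, g3, g4⟩ := finish G 1 k le_rfl T fV d h1 hdN h3
    (fun u hu v huv => by
      have hb : B.Adj u v := ⟨huv, Or.inl hu⟩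
      rw [far_one (h1 u hu) (hdN u v huv), hdB' u v hb]
      exact (hcB u v hb).2 u (Sym2.mem_mk_left _ _) hu)
    (fun v hv => by
      have := hW v hv
      omega)
  refine ⟨gV, d, g1, ?_, g2, hdN, g3, hd.2, ?_⟩
  · intro u v huv
    rw [hdB' u v (hFB huv), hcF u v huv]
  · intro u v huv
    exact ((far_one (g2 u) (hdN u v huv)).1 (g4 u v huv)).symm

end Pool.Agent.H8.TE
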